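import Pool.Agent.X14.CM5

set_option autoImplicit false

/-!
# Sun's congruence modulo `p ^ 2` with the sequence `a(n+2) = 5 a(n+1) - 8 a(n)`
-/

namespace Pool.Agent.Results.MP_7db704_nt.AllOddPrimes

open Finset

/-- The sequence `a(0) = 0`, `a(1) = 1`, `a(n + 2) = 5 a(n + 1) - 8 a(n)`. -/
def a : ℕ → ℤ
  | 0 => 0
  | 1 => 1
  | n + 2 => 5 * a (n + 1) - 8 * a n

lemma a_eq (m : ℕ) : a m = Pool.Agent.X14.CM.aseq m := by
  have key : ∀ m, a m = Pool.Agent.X14.CM.aseq m ∧ a (m + 1) = Pool.Agent.X14.CM.aseq (m + 1) := by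
    intro m
    induction m with
    | zero => exact ⟨rfl, rfl⟩
    | succ m ih =>
      refine ⟨ih.2, ?_⟩
      show 5 * a (m + 1) - 8 * a m = 5 * Pool.Agent.X14.CM.aseq (m + 1) - 8 * Pool.Agent.X14.CM.aseq m
      rw [ih.1, ih.2]
  exact (key m).1

lemma unit4096 {p : ℕ} (hp : p.Prime) (h2 : p ≠ 2) : IsUnit (-4096 : ZMod (p ^ 2)) := by
  have hP : (p : ZMod (p ^ 2)) ^ 2 = 0 := by
    have := ZMod.natCast_self (p ^ 2)
    push_cast at this
    exact this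
  obtain ⟨h, hh⟩ := Pool.Agent.X14.CM.unit_of (S := ZMod (p ^ 2)) hp hP (m := 2) (by
    intro hd
    exact h2 ((Nat.prime_dvd_prime_iff_eq hp (by norm_num)).1 hd))
  push_cast at hh
  have h3 : (4096 : ZMod (p ^ 2)) * h ^ 12 = 1 := by
    have := congrArg (fun t => t ^ 12) hh
    simp only [one_pow] at this
    linear_combination this
  exact IsUnit.of_mul_eq_one (-h ^ 12) (by linear_combination h3)

/-- For every odd prime `p`, `-4096` is a unit modulo `p ^ 2`, and the sum over `0 ≤ k < p` of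
`a(4 k) * binom(2 k, k) ^ 3 / (-4096) ^ k`, computed in `ZMod (p ^ 2)`, is `0`. -/
theorem result (p : ℕ) (hp : p.Prime) (h2 : p ≠ 2) :
    IsUnit (-4096 : ZMod (p ^ 2)) ∧
    ∑ k ∈ range p, (a (4 * k) : ZMod (p ^ 2)) * (((2 * k).choose k : ℕ) : ZMod (p ^ 2)) ^ 3 *
      ((-4096 : ZMod (p ^ 2)) ^ k)⁻¹ = 0 := by
  have hu := unit4096 hp h2
  refine ⟨hu, ?_⟩
  obtain ⟨n, hn⟩ : ∃ n, p = 2 * n + 1 := by
    rcases hp.eq_two_or_odd' with h | h
    · exact absurd h h2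
    · exact h
  have hP : (p : ZMod (p ^ 2)) ^ 2 = 0 := by
    have := ZMod.natCast_self (p ^ 2)
    push_cast at this
    exact this
  have hinv : ∀ k : ℕ, ((-4096 : ZMod (p ^ 2)) ^ k) * ((-4096 : ZMod (p ^ 2)) ^ k)⁻¹ = 1 :=
    fun k => ZMod.mul_inv_of_unit _ (hu.pow k)
  have hsub : ∑ k ∈ range p, (a (4 * k) : ZMod (p ^ 2)) * (((2 * k).choose k : ℕ) : ZMod (p ^ 2)) ^ 3 *
      ((-4096 : ZMod (p ^ 2)) ^ k)⁻¹ = ∑ k ∈ range (n + 1), (a (4 * k) : ZMod (p ^ 2)) * (((2 * k).choose k : ℕ) : ZMod (p ^ 2)) ^ 3 *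
      ((-4096 : ZMod (p ^ 2)) ^ k)⁻¹ := by
    symm
    apply sum_subset
    · intro k hk
      have := mem_range.1 hk
      rw [mem_range]
      have := hp.two_le
      omega
    · intro k hk hk'
      have h1 := mem_range.1 hk
      have h3 : n + 1 ≤ k := by
        by_contra hc
        exact hk' (mem_range.2 (by omega))
      have hd : p ∣ (2 * k).choose k := by
        have := Nat.Prime.dvd_choose_add hp h1 h1 (by omega)
        rwa [← two_mul] at this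
      obtain ⟨c, hc⟩ := hd
      rw [hc]
      push_cast
      linear_combination ((a (4 * k) : ZMod (p ^ 2)) * p * c ^ 3 * ((-4096 : ZMod (p ^ 2)) ^ k)⁻¹) * hP
  rw [hsub]
  have hz := Pool.Agent.X14.CM.Z2 hp hn
  have hz' : ((∑ k ∈ range (n + 1), Pool.Agent.X14.CM.aseq (4 * k) * (k.centralBinom : ℤ) ^ 3 * ((-1) ^ k * 4096 ^ (n - k)) : ℤ) : ZMod (p ^ 2)) = 0 := by
    rw [ZMod.intCast_zmod_eq_zero_iff_dvd]
    push_cast
    exact hz
  push_cast at hz'
  have h4 : (4096 : ZMod (p ^ 2)) ^ n * ∑ k ∈ range (n + 1), (a (4 * k) : ZMod (p ^ 2)) * (((2 * k).choose k : ℕ) : ZMod (p ^ 2)) ^ 3 *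
      ((-4096 : ZMod (p ^ 2)) ^ k)⁻¹ = 0 := by
    rw [← hz', mul_sum]
    apply sum_congr rfl
    intro k hk
    have hk' := mem_range.1 hk
    have e2 : (4096 : ZMod (p ^ 2)) ^ n = 4096 ^ (n - k) * 4096 ^ k := by rw [← pow_add]; congr 1; omega
    have e3 : (4096 : ZMod (p ^ 2)) ^ k = (-1) ^ k * (-4096) ^ k := by
      rw [← mul_pow]; norm_num
    have e4 := hinv k
    have e5 : (((2 * k).choose k : ℕ) : ZMod (p ^ 2)) = (k.centralBinom : ZMod (p ^ 2)) := rfl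
    rw [e2, e3, a_eq, e5]
    linear_combination (4096 ^ (n - k) * (-1) ^ k * (Pool.Agent.X14.CM.aseq (4 * k) : ZMod (p ^ 2)) * (k.centralBinom : ZMod (p ^ 2)) ^ 3) * e4
  have hu2 : IsUnit ((4096 : ZMod (p ^ 2)) ^ n) := by
    have : (4096 : ZMod (p ^ 2)) = -(-4096) := by ring
    rw [this]
    exact (hu.neg).pow n
  exact (hu2.mul_right_eq_zero).1 h4

end Pool.Agent.Results.MP_7db704_nt.AllOddPrimes
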